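import Pool.Agent.Helper60.T3.GoalsI

/-!
PROJECT T3 (MP_a41896_nt), SUBF (helper90): the points with coordinates in an intermediate field form a group.
-/

set_option autoImplicit false

noncomputable section

namespace Pool.Agent.Helper90.T3.SUBF

open WeierstrassCurve
open Pool.Agent.Helper29.BL Pool.Agent.Helper42.SG
open Pool.Agent.Helper60.T3

section

variable {k L : Type} [Field k] [CharZero k] [Field L] [DecidableEq L] [Algebra k L]
  {W : Affine k} {F : IntermediateField k L}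

omit [CharZero k] [DecidableEq L] in
theorem coef : (WL L W).a₁ ∈ F ∧ (WL L W).a₂ ∈ F ∧ (WL L W).a₃ ∈ F ∧ (WL L W).a₄ ∈ F ∧
    (WL L W).a₆ ∈ F :=
  ⟨F.algebraMap_mem W.a₁, F.algebraMap_mem W.a₂, F.algebraMap_mem W.a₃, F.algebraMap_mem W.a₄,
    F.algebraMap_mem W.a₆⟩

omit [DecidableEq L] in
/-- `IP` for an affine point -/
theorem ip_some {x y : L} (h : (WL L W).Nonsingular x y) :
    IP (F : Set L) (Affine.Point.some x y h) ↔ x ∈ F ∧ y ∈ F := by
  obtain ⟨c1, -, c3, -, -⟩ := coef (W := W) (F := F)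
  have h2 : (2 : L) ∈ F := by
    have := F.algebraMap_mem 2
    rwa [map_ofNat] at this
  have : CharZero L := charZero_of_injective_algebraMap (algebraMap k L).injective
  constructor
  · rintro (h0 | ⟨hx, hp⟩)
    · exact absurd h0 (Affine.Point.some_ne_zero h)
    · have hx' : x ∈ F := hx
      have hp' : 2 * y + (WL L W).a₁ * x + (WL L W).a₃ ∈ F := hp
      refine ⟨hx', ?_⟩
      have e : y = ((2 * y + (WL L W).a₁ * x + (WL L W).a₃) - (WL L W).a₁ * x - (WL L W).a₃) / 2 := by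
        ring
      rw [e]
      exact F.div_mem (F.sub_mem (F.sub_mem hp' (F.mul_mem c1 hx')) c3) h2
  · rintro ⟨hx, hy⟩
    refine Or.inr ⟨hx, ?_⟩
    show 2 * y + (WL L W).a₁ * x + (WL L W).a₃ ∈ F
    exact F.add_mem (F.add_mem (F.mul_mem h2 hy) (F.mul_mem c1 hx)) c3

omit [DecidableEq L] in
theorem ip_neg {P : (WL L W).Point} (hP : IP (F : Set L) P) : IP (F : Set L) (-P) := by
  obtain ⟨c1, -, c3, -, -⟩ := coef (W := W) (F := F)
  rcases P with _ | ⟨x, y, h⟩
  · exact Or.inl rfl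
  · obtain ⟨hx, hy⟩ := (ip_some h).mp hP
    rw [Affine.Point.neg_some, ip_some]
    refine ⟨hx, ?_⟩
    unfold Affine.negY
    exact F.sub_mem (F.sub_mem (F.neg_mem hy) (F.mul_mem c1 hx)) c3

theorem ip_add {P Q : (WL L W).Point} (hP : IP (F : Set L) P) (hQ : IP (F : Set L) Q) :
    IP (F : Set L) (P + Q) := by
  obtain ⟨c1, c2, c3, c4, c6⟩ := coef (W := W) (F := F)
  have hn : ∀ n : ℕ, (n : L) ∈ F := fun n => by
    have := F.algebraMap_mem (n : k)
    rwa [map_natCast] at this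
  have h2 : (2 : L) ∈ F := by exact_mod_cast hn 2
  have h3 : (3 : L) ∈ F := by exact_mod_cast hn 3
  rcases P with _ | ⟨x₁, y₁, h₁⟩
  · rw [← Affine.Point.zero_def, zero_add]
    exact hQ
  rcases Q with _ | ⟨x₂, y₂, h₂⟩
  · rw [← Affine.Point.zero_def, add_zero]
    exact hP
  obtain ⟨hx1, hy1⟩ := (ip_some h₁).mp hP
  obtain ⟨hx2, hy2⟩ := (ip_some h₂).mp hQ
  by_cases hxy : x₁ = x₂ ∧ y₁ = (WL L W).negY x₂ y₂
  · rw [Affine.Point.add_of_Y_eq hxy.1 hxy.2]
    exact Or.inl rfl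
  · rw [Affine.Point.add_some hxy, ip_some]
    have hneg : ∀ x y : L, x ∈ F → y ∈ F → (WL L W).negY x y ∈ F := by
      intro x y hx hy
      unfold Affine.negY
      exact F.sub_mem (F.sub_mem (F.neg_mem hy) (F.mul_mem c1 hx)) c3
    have hsl : (WL L W).slope x₁ x₂ y₁ y₂ ∈ F := by
      unfold Affine.slope
      split_ifs
      · exact F.zero_mem
      · refine F.div_mem ?_ (F.sub_mem hy1 (hneg _ _ hx1 hy1))
        exact F.sub_mem (F.add_mem (F.add_mem (F.mul_mem h3 (pow_mem hx1 2))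
          (F.mul_mem (F.mul_mem h2 c2) hx1)) c4) (F.mul_mem c1 hy1)
      · exact F.div_mem (F.sub_mem hy1 hy2) (F.sub_mem hx1 hx2)
    have hX : (WL L W).addX x₁ x₂ ((WL L W).slope x₁ x₂ y₁ y₂) ∈ F := by
      unfold Affine.addX
      exact F.sub_mem (F.sub_mem (F.sub_mem (F.add_mem (pow_mem hsl 2) (F.mul_mem c1 hsl)) c2)
        hx1) hx2
    refine ⟨hX, ?_⟩
    unfold Affine.addY
    refine hneg _ _ hX ?_
    unfold Affine.negAddY
    exact F.add_mem (F.mul_mem hsl (F.sub_mem hX hx1)) hy1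

end

theorem t : Pool.Agent.Helper60.T3.S_SUBF := by
  intro k L _ _ _ _ _ W F P Q hP hQ
  refine ⟨ip_add hP hQ, ?_, ip_neg hP, ?_⟩
  · rw [sub_eq_add_neg]
    exact ip_add hP (ip_neg hQ)
  · intro n
    induction n with
    | zero =>
      rw [zero_nsmul]
      exact Or.inl rfl
    | succ n ih =>
      rw [succ_nsmul]
      exact ip_add ih hP

end Pool.Agent.Helper90.T3.SUBF
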